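import Mathlib

namespace Pool.Agent.Results.MP_7a8221_co.Q1

/-- Quarter-turn on unit cells (a cell is named by its integer coordinates). -/
def rot (p : ℤ × ℤ) : ℤ × ℤ := (-p.2, p.1)

/-- The L-tetromino: a row of three cells and one cell above an end cell. -/
def L : Finset (ℤ × ℤ) := {(0, 0), (1, 0), (2, 0), (0, 1)}

/-- The copy of `L` rotated by `k` quarter-turns and translated by `v` (no reflection). -/
def tile (k : ℕ) (v : ℤ × ℤ) : Finset (ℤ × ℤ) := L.image fun p => rot^[k] p + v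

/-- The `m × n` rectangle is partitioned into rotated and translated copies of `L`. -/
def Tileable (m n : ℕ) : Prop :=
  ∃ T : Finset (Finset (ℤ × ℤ)), (∀ t ∈ T, ∃ k v, t = tile k v) ∧
    (∀ s ∈ T, ∀ t ∈ T, s ≠ t → Disjoint s t) ∧
    T.biUnion id = Finset.Ico (0 : ℤ) m ×ˢ Finset.Ico (0 : ℤ) n

def sol : List (ℕ × ℤ × ℤ) := [(0, 0, 0), (1, 1, 2), (3, 0, 5), (0, 0, 6), (1, 2, 1), (2, 3, 7),
  (0, 2, 4), (1, 4, 0), (3, 3, 3), (1, 4, 5)]

theorem result : Tileable 5 8 ∧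
    ¬ ∀ m n : ℕ, 1 ≤ m → 1 ≤ n → (Tileable m n ↔ (4 ∣ m ∧ 2 ∣ n) ∨ (4 ∣ n ∧ 2 ∣ m)) := by
  have h : Tileable 5 8 := by
    refine ⟨(sol.map fun q => tile q.1 q.2).toFinset, fun t ht => ?_, by decide +kernel,
      by decide +kernel⟩
    obtain ⟨q, -, rfl⟩ := List.mem_map.1 (List.mem_toFinset.1 ht)
    exact ⟨_, _, rfl⟩
  exact ⟨h, fun H => by have := (H 5 8 (by omega) (by omega)).1 h; omega⟩

end Pool.Agent.Results.MP_7a8221_co.Q1
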